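import Pool.Agent.H.MP_0c6837_al.C

set_option autoImplicit false

namespace Pool.Agent.Results.MP_0c6837_al.NotTopFree

open MeasureTheory Pool.Agent.H.MP_0c6837_al

theorem result :
    ∃ (n : ℕ) (X : Type) (_ : TopologicalSpace X) (_ : CompactSpace X) (_ : T2Space X)
      (_ : Nonempty X) (_ : MulAction (FreeGroup (Fin n)) X)
      (_ : ContinuousConstSMul (FreeGroup (Fin n)) X) (_ : MeasurableSpace X) (_ : BorelSpace X),
      (∀ g : FreeGroup (Fin n), (∀ x : X, g • x = x) → g = 1) ∧
      (∀ x : X, Dense (MulAction.orbit (FreeGroup (Fin n)) x)) ∧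
      (∀ μ : ProbabilityMeasure X, ∃ x : X, diracProba x ∈ closure
        (Set.range fun g : FreeGroup (Fin n) =>
          μ.map (f := fun y : X => g • y) (continuous_const_smul g).measurable.aemeasurable)) ∧
      ¬ Dense {x : X | MulAction.stabilizer (FreeGroup (Fin n)) x = ⊥} :=
  ⟨3, abs_main rho (fun u => dead u.1) rt (FreeGroup.of 0) (FreeGroup.of_ne_one 0)
    (by simp [dead, rt, tl, vp]) dead_fix faithful sp_comb⟩

end Pool.Agent.Results.MP_0c6837_al.NotTopFree
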